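import Mathlib

set_option autoImplicit false

namespace Pool.Agent.Results.MP_d6da6d_an.NotExtremal

open MeasureTheory Set Finset

/-- The Fourier transform `û(ξ) = ∫ u(x) e^{-2πiξx} dx`. -/
noncomputable def ft (u : ℝ → ℝ) (ξ : ℝ) : ℂ :=
  ∫ x : ℝ, (u x : ℂ) * Complex.exp (-2 * Real.pi * Complex.I * ξ * x)

/-- The functional `Φ_α` for a natural exponent `α`. -/
noncomputable def Phi (α : ℕ) (u : ℝ → ℝ) : ℝ :=
  (⨆ ξ : ℝ, ‖(ξ : ℂ) * ft u ξ‖) ^ α * (∫ x : ℝ, |x| ^ α * |u x|) / (∫ x : ℝ, |u x|) ^ (α + 1)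

/-- The indicator of `[-r, r]`. -/
noncomputable def box (r : ℝ) : ℝ → ℝ := (Icc (-r) r).indicator fun _ => 1

theorem box_eq (r x : ℝ) : box r x = if |x| ≤ r then 1 else 0 := by
  simp only [box, Set.indicator, Set.mem_Icc, abs_le]

theorem mul_box (r : ℝ) (g : ℝ → ℂ) :
    (fun x => (box r x : ℂ) * g x) = (Icc (-r) r).indicator g := by
  ext x
  by_cases h : x ∈ Icc (-r) r <;> simp [box, h]

theorem mul_box_real (r : ℝ) (g : ℝ → ℝ) :
    (fun x => g x * box r x) = (Icc (-r) r).indicator g := by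
  ext x
  by_cases h : x ∈ Icc (-r) r <;> simp [box, h]

theorem int_box (r : ℝ) {g : ℝ → ℂ} (hg : Continuous g) :
    Integrable fun x => (box r x : ℂ) * g x := by
  rw [mul_box]
  exact (integrable_indicator_iff measurableSet_Icc).2 hg.integrableOn_Icc

theorem int_box_real (r : ℝ) {g : ℝ → ℝ} (hg : Continuous g) :
    Integrable fun x => g x * box r x := by
  rw [mul_box_real]
  exact (integrable_indicator_iff measurableSet_Icc).2 hg.integrableOn_Icc

theorem ft_box {r : ℝ} (hr : 0 ≤ r) (ξ : ℝ) :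
    (ξ : ℂ) * ft (box r) ξ = ((Real.sin (2 * Real.pi * r * ξ) / Real.pi : ℝ) : ℂ) := by
  rcases eq_or_ne ξ 0 with rfl | h
  · simp
  have hπ : (Real.pi : ℂ) ≠ 0 := by exact_mod_cast Real.pi_ne_zero
  have hξ : (ξ : ℂ) ≠ 0 := by exact_mod_cast h
  rw [ft, mul_box, integral_indicator measurableSet_Icc, integral_Icc_eq_integral_Ioc,
    ← intervalIntegral.integral_of_le (by linarith),
    integral_exp_mul_complex (by simp [hπ, hξ])]
  push_cast
  rw [Complex.sin]
  have e1 : -2 * (Real.pi : ℂ) * Complex.I * ξ * r = -(2 * Real.pi * r * ξ) * Complex.I := by ring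
  have e2 : -2 * (Real.pi : ℂ) * Complex.I * ξ * -r = 2 * Real.pi * r * ξ * Complex.I := by ring
  rw [e1, e2]
  generalize Complex.exp (-(2 * Real.pi * r * ξ) * Complex.I) = A
  generalize Complex.exp (2 * Real.pi * r * ξ * Complex.I) = B
  field_simp
  linear_combination (B - A) * Complex.I_sq

theorem integral_box {r : ℝ} (hr : 0 ≤ r) (k : ℕ) :
    ∫ x : ℝ, x ^ (2 * k) * box r x = 2 * r ^ (2 * k + 1) / (2 * k + 1) := by
  rw [mul_box_real, integral_indicator measurableSet_Icc, integral_Icc_eq_integral_Ioc,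
    ← intervalIntegral.integral_of_le (by linarith), integral_pow,
    Odd.neg_pow ⟨k, rfl⟩]
  push_cast
  ring

/-- jumps of the step function -/
def c (j : ℕ) : ℤ := [-1202, -272, -45, 68, 131, 169, 186, 188, 178, 158, 126, 88, 46].getD j 0

/-- Fejér-Riesz certificate -/
def Q (j : ℕ) : ℤ := [1649, 2242, 1099, -227, -400, -29, 66, 96, 123, -95, -251, 88, 323, -69,
  -362, 49, 380, -41, -378, 54, 344, -71, -284, 102, 190, -139].getD j 0

/-- autocorrelation -/
def ac (m : ℕ) : ℤ :=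
  ∑ p ∈ range 26 ×ˢ range 26, if p.1 - p.2 + (p.2 - p.1) = m then Q p.1 * Q p.2 else 0

/-- target coefficients -/
def tg (m : ℕ) : ℤ := ∑ j ∈ range 13, if 2 * j + 1 = m then c j * (-1) ^ j else 0

theorem cert : ∑ m ∈ range 26, |(if m = 0 then 10080000 else 0) - 10000 * tg m - ac m| ≤ 50000 := by
  decide +kernel

theorem reindex {ι : Type} (s : Finset ι) (w : ι → ℤ) (k : ι → ℕ) (d : ℕ)
    (hk : ∀ i ∈ s, k i < d) (g : ℕ → ℝ) :
    ∑ m ∈ range d, ((∑ i ∈ s, if k i = m then w i else 0 : ℤ) : ℝ) * g m =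
      ∑ i ∈ s, (w i : ℝ) * g (k i) := by
  push_cast
  simp only [Finset.sum_mul]
  rw [Finset.sum_comm]
  refine Finset.sum_congr rfl fun i hi => ?_
  simp [hk i hi]

theorem ac_nonneg (φ : ℝ) : 0 ≤ ∑ m ∈ range 26, (ac m : ℝ) * Real.cos (m * φ) := by
  simp only [ac]
  rw [reindex _ (fun p : ℕ × ℕ => Q p.1 * Q p.2) (fun p => p.1 - p.2 + (p.2 - p.1)) 26
    (fun p hp => by simp only [Finset.mem_product, Finset.mem_range] at hp; omega)
    (fun m => Real.cos (m * φ))]
  have h : ∀ a b : ℕ, Real.cos ((a - b + (b - a) : ℕ) * φ) =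
      Real.cos (a * φ) * Real.cos (b * φ) + Real.sin (a * φ) * Real.sin (b * φ) := by
    intro a b
    rw [← Real.cos_sub]
    rcases le_total a b with h | h
    · rw [Nat.sub_eq_zero_of_le h, zero_add, Nat.cast_sub h, ← Real.cos_neg]; congr 1; ring
    · rw [Nat.sub_eq_zero_of_le h, add_zero, Nat.cast_sub h]; congr 1; ring
  have h2 : ∑ p ∈ range 26 ×ˢ range 26, ((Q p.1 * Q p.2 : ℤ) : ℝ) *
      Real.cos ((p.1 - p.2 + (p.2 - p.1) : ℕ) * φ) =
      (∑ a ∈ range 26, (Q a : ℝ) * Real.cos (a * φ)) ^ 2 +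
      (∑ a ∈ range 26, (Q a : ℝ) * Real.sin (a * φ)) ^ 2 := by
    rw [sq, sq, Finset.sum_mul_sum, Finset.sum_mul_sum, Finset.sum_product,
      ← Finset.sum_add_distrib]
    refine Finset.sum_congr rfl fun a _ => ?_
    rw [← Finset.sum_add_distrib]
    refine Finset.sum_congr rfl fun b _ => ?_
    rw [h]; push_cast; ring
  rw [h2]
  positivity

theorem upper (θ : ℝ) : ∑ j ∈ range 13, (c j : ℝ) * Real.sin ((2 * j + 1 : ℕ) * θ) ≤ 1013 := by
  set φ := Real.pi / 2 - θ with hφ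
  have h1 : ∑ j ∈ range 13, (c j : ℝ) * Real.sin ((2 * j + 1 : ℕ) * θ) =
      ∑ m ∈ range 26, (tg m : ℝ) * Real.cos (m * φ) := by
    simp only [tg]
    rw [reindex _ (fun j => c j * (-1) ^ j) (fun j => 2 * j + 1) 26
      (fun j hj => by simp only [Finset.mem_range] at hj; omega) (fun m => Real.cos (m * φ))]
    refine Finset.sum_congr rfl fun j _ => ?_
    have : ((2 * j + 1 : ℕ) : ℝ) * θ = (Real.pi / 2 - (2 * j + 1 : ℕ) * φ) + j * Real.pi := by
      rw [hφ]; push_cast; ring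
    rw [this, Real.sin_add_nat_mul_pi, Real.sin_pi_div_two_sub]
    push_cast; ring
  have h2 := ac_nonneg φ
  have h3 : ∑ m ∈ range 26, (((if m = 0 then 10080000 else 0 : ℤ)) : ℝ) * Real.cos (m * φ) =
      10080000 := by
    rw [Finset.sum_eq_single 0] <;> simp +contextual
  have h4 : -(∑ m ∈ range 26, ((|(if m = 0 then 10080000 else 0) - 10000 * tg m - ac m| : ℤ) : ℝ))
      ≤ ∑ m ∈ range 26, (((if m = 0 then 10080000 else 0) - 10000 * tg m - ac m : ℤ) : ℝ) *
        Real.cos (m * φ) := by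
    rw [← Finset.sum_neg_distrib]
    refine Finset.sum_le_sum fun m _ => ?_
    rw [Int.cast_abs]
    refine le_trans ?_ (neg_abs_le _)
    rw [abs_mul]
    exact neg_le_neg (mul_le_of_le_one_right (abs_nonneg _) (Real.abs_cos_le_one _))
  have h5 : (∑ m ∈ range 26,
      ((|(if m = 0 then 10080000 else 0) - 10000 * tg m - ac m| : ℤ) : ℝ)) ≤ 50000 := by
    exact_mod_cast cert
  simp only [Int.cast_sub, Int.cast_mul, sub_mul, Finset.sum_sub_distrib, mul_assoc,
    ← Finset.mul_sum] at h4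
  rw [h1]
  have h6 : ((10000 : ℤ) : ℝ) = 10000 := by norm_num
  rw [h6] at h4
  linarith

theorem abs_bound (θ : ℝ) :
    |∑ j ∈ range 13, (c j : ℝ) * Real.sin ((2 * j + 1 : ℕ) * θ)| ≤ 1013 := by
  have h := upper (-θ)
  simp only [mul_neg, Real.sin_neg, Finset.sum_neg_distrib] at h
  exact abs_le.2 ⟨by linarith, upper θ⟩

/-- half widths -/
noncomputable def r (j : ℕ) : ℝ := (2 * j + 1 : ℕ) / 50

theorem r_nonneg (j : ℕ) : 0 ≤ r j := by unfold r; positivity

/-- the step function -/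
noncomputable def u (x : ℝ) : ℝ := ∑ j ∈ range 13, (c j : ℝ) * box (r j) x

theorem ft_u (ξ : ℝ) : ‖(ξ : ℂ) * ft u ξ‖ ≤ 1013 / Real.pi := by
  have h1 : ft u ξ = ∑ j ∈ range 13, (c j : ℂ) * ft (box (r j)) ξ := by
    simp only [ft, u, ← integral_const_mul]
    rw [← integral_finsetSum _ fun j _ => (int_box _ (by fun_prop)).const_mul _]
    refine integral_congr_ae (Filter.Eventually.of_forall fun x => ?_)
    push_cast
    rw [Finset.sum_mul]
    exact Finset.sum_congr rfl fun j _ => by ring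
  have h2 : (ξ : ℂ) * ft u ξ = (((∑ j ∈ range 13,
      (c j : ℝ) * Real.sin ((2 * j + 1 : ℕ) * (Real.pi * ξ / 25))) / Real.pi : ℝ) : ℂ) := by
    rw [h1, Finset.mul_sum, Finset.sum_div, Complex.ofReal_sum]
    refine Finset.sum_congr rfl fun j _ => ?_
    rw [mul_left_comm, ft_box (r_nonneg j)]
    have : 2 * Real.pi * r j * ξ = (2 * j + 1 : ℕ) * (Real.pi * ξ / 25) := by unfold r; ring
    rw [this]; push_cast; ring
  rw [h2, Complex.norm_real, Real.norm_eq_abs, abs_div, abs_of_pos Real.pi_pos]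
  exact div_le_div_of_nonneg_right (abs_bound _) Real.pi_pos.le

open Classical in
theorem u_cases (x : ℝ) : ∃ i ≤ 13, ∀ j < 13, box (r j) x = if i ≤ j then 1 else 0 := by
  have h : ∃ i, 13 ≤ i ∨ |x| ≤ r i := ⟨13, Or.inl le_rfl⟩
  refine ⟨Nat.find h, Nat.find_min' h (Or.inl le_rfl), fun j hj => ?_⟩
  rw [box_eq]
  congr 1
  refine propext ⟨fun h1 => Nat.find_min' h (Or.inr h1), fun h1 => ?_⟩
  rcases Nat.find_spec h with h2 | h2
  · omega
  · refine h2.trans ?_
    unfold r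
    exact div_le_div_of_nonneg_right (Nat.cast_le.2 (Nat.succ_le_succ (Nat.mul_le_mul_left 2 h1))) (by norm_num)

theorem u_prop (x : ℝ) : |u x| = u x + 362 * box (r 0) x ∧ (u x = 0 ↔ box (r 12) x = 0) := by
  obtain ⟨i, hi, h⟩ := u_cases x
  have h1 : u x = ∑ j ∈ range 13, (c j : ℝ) * if i ≤ j then 1 else 0 :=
    Finset.sum_congr rfl fun j hj => by rw [h j (Finset.mem_range.1 hj)]
  rw [h1, h 0 (by norm_num), h 12 (by norm_num)]
  interval_cases i <;> simp [Finset.sum_range_succ, c] <;> norm_num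

theorem moment (k : ℕ) : ∫ x : ℝ, x ^ (2 * k) * |u x| =
    ∑ j ∈ range 13, (c j : ℝ) * (2 * r j ^ (2 * k + 1) / (2 * k + 1)) +
      362 * (2 * r 0 ^ (2 * k + 1) / (2 * k + 1)) := by
  have hi : ∀ j, Integrable fun x : ℝ => x ^ (2 * k) * box (r j) x := fun j =>
    int_box_real _ (by fun_prop)
  simp only [← integral_box (r_nonneg _) k, ← integral_const_mul]
  rw [← integral_finsetSum _ fun j _ => (hi j).const_mul _,
    ← integral_add (integrable_finsetSum _ fun j _ => (hi j).const_mul _) ((hi 0).const_mul _)]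
  refine integral_congr_ae (Filter.Eventually.of_forall fun x => ?_)
  beta_reduce
  rw [(u_prop x).1, u, mul_add, Finset.mul_sum]
  congr 1
  · exact Finset.sum_congr rfl fun j _ => by ring
  · ring

theorem result : ∃ u : ℝ → ℝ, Integrable u ∧ (∀ x, 1 / 2 < |x| → u x = 0) ∧
    (∀ x, |x| ≤ 1 / 2 → u x ≠ 0) ∧ BddAbove (Set.range fun ξ : ℝ => ‖(ξ : ℂ) * ft u ξ‖) ∧
    Phi 2 u < Phi 2 (box (1 / 2)) := by
  have hr : r 12 = 1 / 2 := by unfold r; norm_num
  have hπ := Real.pi_pos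
  refine ⟨u, ?_, fun x hx => ?_, fun x hx => ?_, ⟨_, by rintro _ ⟨ξ, rfl⟩; exact ft_u ξ⟩, ?_⟩
  · refine integrable_finsetSum _ fun j _ => Integrable.const_mul ?_ _
    simpa using int_box_real (r j) (g := fun _ => 1) continuous_const
  · rw [(u_prop x).2, box_eq, hr, if_neg (not_le.2 hx)]
  · rw [Ne, (u_prop x).2, box_eq, hr, if_pos hx]; norm_num
  · have a0 : ∫ x : ℝ, |u x| = 18719 / 25 := by
      have := moment 0
      simp only [mul_zero, pow_zero, one_mul] at this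
      rw [this]; simp [Finset.sum_range_succ, c, r]; norm_num
    have a1 : ∫ x : ℝ, |x| ^ 2 * |u x| = 6287663 / 187500 := by
      have := moment 1
      simp only [sq_abs]
      rw [this]; simp [Finset.sum_range_succ, c, r]; norm_num
    have hb : ∀ x, |box (1 / 2) x| = box (1 / 2) x := fun x => by
      rw [box_eq]; split_ifs <;> simp
    have b0 : ∫ x : ℝ, |box (1 / 2) x| = 1 := by
      have := integral_box (r := 1 / 2) (by norm_num) 0
      simp only [mul_zero, pow_zero, one_mul] at this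
      simp only [hb]
      rw [this]; norm_num
    have b1 : ∫ x : ℝ, |x| ^ 2 * |box (1 / 2) x| = 1 / 12 := by
      have := integral_box (r := 1 / 2) (by norm_num) 1
      simp only [sq_abs, hb]
      rw [this]; norm_num
    have c0 : (⨆ ξ : ℝ, ‖(ξ : ℂ) * ft u ξ‖) ≤ 1013 / Real.pi := ciSup_le ft_u
    have c1 : 0 ≤ ⨆ ξ : ℝ, ‖(ξ : ℂ) * ft u ξ‖ := Real.iSup_nonneg fun _ => norm_nonneg _
    have c2 : 1 / Real.pi ≤ ⨆ ξ : ℝ, ‖(ξ : ℂ) * ft (box (1 / 2)) ξ‖ := by
      refine le_ciSup_of_le ⟨1 / Real.pi, ?_⟩ (1 / 2) ?_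
      · rintro _ ⟨ξ, rfl⟩
        beta_reduce
        rw [ft_box (by norm_num), Complex.norm_real, Real.norm_eq_abs, abs_div, abs_of_pos hπ]
        exact div_le_div_of_nonneg_right (Real.abs_sin_le_one _) hπ.le
      · rw [ft_box (by norm_num), Complex.norm_real, Real.norm_eq_abs, abs_div, abs_of_pos hπ,
          show 2 * Real.pi * (1 / 2) * (1 / 2) = Real.pi / 2 by ring, Real.sin_pi_div_two, abs_one]
    unfold Phi
    rw [a0, a1, b0, b1]
    have d0 := pow_le_pow_left₀ c1 c0 2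
    have d1 := pow_le_pow_left₀ (by positivity) c2 2
    have d2 : (1013 / Real.pi) ^ 2 = 1013 ^ 2 * (1 / Real.pi) ^ 2 := by ring
    have d3 : 0 < (1 / Real.pi) ^ 2 := by positivity
    rw [d2] at d0
    generalize (1 / Real.pi) ^ 2 = P at d0 d1 d3
    generalize (⨆ ξ : ℝ, ‖(ξ : ℂ) * ft u ξ‖) ^ 2 = A at d0
    generalize (⨆ ξ : ℝ, ‖(ξ : ℂ) * ft (box (1 / 2)) ξ‖) ^ 2 = B at d1
    norm_num at d0 ⊢
    linarith

end Pool.Agent.Results.MP_d6da6d_an.NotExtremal
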